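import Mathlib

set_option autoImplicit false
set_option maxHeartbeats 400000

namespace Pool.Agent.H.MP_a94181_al

abbrev E (k : ℕ) := {p : Fin k × Fin k // p.1.val + 1 < p.2.val}

@[ext] structure G (n k : ℕ) where
  s : Bool
  v : Fin k → ZMod n
  z : E k → ZMod n

variable {n k : ℕ}

def sg (n : ℕ) (s : Bool) : ZMod n := cond s (-1) 1

instance : Mul (G n k) := ⟨fun a b => ⟨xor a.s b.s, fun j => sg n b.s * a.v j + b.v j,
  fun e => a.z e + b.z e + sg n b.s * a.v e.1.1 * b.v e.1.2⟩⟩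
instance : One (G n k) := ⟨⟨false, 0, 0⟩⟩
instance : Inv (G n k) := ⟨fun a => ⟨a.s, fun j => -(sg n a.s * a.v j),
  fun e => -a.z e + a.v e.1.1 * a.v e.1.2⟩⟩

@[simp] theorem mul_s (a b : G n k) : (a * b).s = xor a.s b.s := rfl
@[simp] theorem mul_v (a b : G n k) (j : Fin k) : (a * b).v j = sg n b.s * a.v j + b.v j := rfl
@[simp] theorem mul_z (a b : G n k) (e : E k) :
    (a * b).z e = a.z e + b.z e + sg n b.s * a.v e.1.1 * b.v e.1.2 := rfl
@[simp] theorem one_s : (1 : G n k).s = false := rfl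
@[simp] theorem one_v : (1 : G n k).v = 0 := rfl
@[simp] theorem one_z : (1 : G n k).z = 0 := rfl
@[simp] theorem sg_t : sg n true = -1 := rfl
@[simp] theorem sg_f : sg n false = 1 := rfl

instance : Group (G n k) := Group.ofLeftAxioms
  (fun a b c => by
    ext
    · simp
    · simp only [mul_v, mul_s]; cases b.s <;> cases c.s <;> simp <;> ring
    · simp only [mul_z, mul_v, mul_s]; cases b.s <;> cases c.s <;> simp <;> ring)
  (fun a => by ext <;> simp)
  (fun a => by
    obtain ⟨s, v, z⟩ := a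
    ext j
    · change xor s s = false; simp
    · change sg n s * -(sg n s * v j) + v j = 0; cases s <;> simp
    · change -z j + v j.1.1 * v j.1.2 + z j + sg n s * -(sg n s * v j.1.1) * v j.1.2 = 0
      cases s <;> simp)

def eqv : G n k ≃ Bool × (Fin k → ZMod n) × (E k → ZMod n) :=
  ⟨fun a => (a.s, a.v, a.z), fun p => ⟨p.1, p.2.1, p.2.2⟩, fun _ => rfl, fun _ => rfl⟩

instance [NeZero n] : Finite (G n k) := Finite.of_equiv _ eqv.symm

theorem card_G : Nat.card (G n k) = 2 * (n ^ k * n ^ Fintype.card (E k)) := by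
  rw [Nat.card_congr eqv]
  simp [Nat.card_prod, Nat.card_fun]

def t : G n k := ⟨true, 0, 0⟩
def x (j : Fin k) : G n k := ⟨false, Pi.single j 1, 0⟩

theorem gen [NeZero n] (H : Subgroup (G n k)) (ht : t ∈ H) (hx : ∀ j, x j ∈ H) (g : G n k) :
    g ∈ H := by
  have ind : ∀ {I : Type} [Finite I] [DecidableEq I] (p : (I → ZMod n) → Prop), p 0 →
      (∀ f g, p f → p g → p (f + g)) → (∀ i, p (Pi.single i 1)) → ∀ f, p f := by
    intro I _ _ p h0 h1 h2 f
    refine Pi.single_induction p f h0 h1 fun i r => ?_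
    rw [← ZMod.natCast_zmod_val r]
    induction r.val with
    | zero => simpa using h0
    | succ m ih => rw [Nat.cast_succ, Pi.single_add]; exact h1 _ _ ih (h2 i)
  have hz : ∀ z, (⟨false, 0, z⟩ : G n k) ∈ H := by
    refine ind _ H.one_mem (fun f g h1 h2 => ?_) fun e => ?_
    · have := H.mul_mem h1 h2
      refine (congrArg (· ∈ H) ?_).mp this
      ext <;> simp
    · have h1 : x e.1.2 * x e.1.1 * (⟨false, 0, Pi.single e 1⟩ : G n k) = x e.1.1 * x e.1.2 := by
        ext f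
        · rfl
        · simp [x, add_comm]
        · have h2 := e.2
          have h3 := f.2
          simp only [x, mul_z, sg_f, Pi.zero_apply, mul_zero, add_zero, one_mul, zero_add,
            Pi.single_apply, Subtype.ext_iff, Prod.ext_iff, Fin.ext_iff]
          split_ifs <;> first | omega | simp
      rw [eq_inv_mul_of_mul_eq h1]
      exact H.mul_mem (H.inv_mem (H.mul_mem (hx _) (hx _))) (H.mul_mem (hx _) (hx _))
  have hv : ∀ v, ∃ z, (⟨false, v, z⟩ : G n k) ∈ H := by
    refine ind _ ⟨0, H.one_mem⟩ (fun f g ⟨z1, h1⟩ ⟨z2, h2⟩ => ?_) fun j => ⟨0, hx j⟩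
    refine ⟨((⟨false, f, z1⟩ : G n k) * ⟨false, g, z2⟩).z, ?_⟩
    refine (congrArg (· ∈ H) ?_).mp (H.mul_mem h1 h2)
    ext <;> simp
  have hp : ∀ v z, (⟨false, v, z⟩ : G n k) ∈ H := by
    intro v z
    obtain ⟨z0, h⟩ := hv v
    refine (congrArg (· ∈ H) ?_).mp (H.mul_mem h (hz (z - z0)))
    ext <;> simp
  obtain ⟨s, v, z⟩ := g
  cases s
  · exact hp v z
  · refine (congrArg (· ∈ H) ?_).mp (H.mul_mem ht (hp v z))
    ext <;> simp [t]

theorem pow_sv {g : G n k} (h : g.s = false) (m : ℕ) :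
    (g ^ m).s = false ∧ ∀ j, (g ^ m).v j = m * g.v j := by
  induction m with
  | zero => simp
  | succ m ih => rw [pow_succ]; simp [ih.1, ih.2, h, add_mul]

theorem cen {g : G n k} (h : g.s = false) (hv : ∀ j, g.v j = 0) : g ∈ Subgroup.center (G n k) := by
  rw [Subgroup.mem_center_iff]
  intro y
  ext <;> simp [h, hv, add_comm]

theorem good (l : ℕ) {g : G (2 ^ (l + 2)) k} (h : g ^ 2 ^ (l + 1) ∉ Subgroup.center _) :
    g.s = false ∧ ∃ j, IsUnit (g.v j) := by
  have h1 : g.s = false := by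
    by_contra h1
    rw [Bool.not_eq_false] at h1
    rw [pow_succ' 2 l, pow_mul] at h
    exact h (pow_mem (cen (by simp [sq]) (by simp [sq, h1])) _)
  refine ⟨h1, ?_⟩
  by_contra h2
  refine h (cen (pow_sv h1 _).1 fun j => ?_)
  have h3 : ¬ IsUnit (((g.v j).val : ℕ) : ZMod (2 ^ (l + 2))) := by
    rw [ZMod.natCast_zmod_val]; exact fun h3 => h2 ⟨j, h3⟩
  rw [ZMod.isUnit_iff_coprime, Nat.coprime_pow_right_iff (by omega), Nat.coprime_two_right,
    Nat.not_odd_iff_even] at h3
  obtain ⟨u, hu⟩ := h3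
  rw [(pow_sv h1 _).2, ← ZMod.natCast_zmod_val (g.v j), hu, ← Nat.cast_mul,
    ZMod.natCast_eq_zero_iff]
  exact ⟨u, by ring⟩

theorem x_good (l : ℕ) (hk : 4 ≤ k) (j : Fin k) :
    (x j : G (2 ^ (l + 2)) k) ^ 2 ^ (l + 1) ∉ Subgroup.center _ := by
  intro h
  rw [Subgroup.mem_center_iff] at h
  obtain ⟨h1, h2⟩ := pow_sv (g := (x j : G (2 ^ (l + 2)) k)) rfl (2 ^ (l + 1))
  have h3 : ((2 ^ (l + 1) : ℕ) : ZMod (2 ^ (l + 2))) ≠ 0 := by
    rw [Ne, ZMod.natCast_eq_zero_iff, Nat.pow_dvd_pow_iff_le_right (by omega)]; omega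
  apply h3
  by_cases hj : j.val + 2 < k
  · have h4 := congrArg (fun g => g.z ⟨(j, ⟨j.val + 2, hj⟩), by simp⟩) (h (x ⟨j.val + 2, hj⟩))
    simp only [mul_z, h1, h2] at h4
    simpa [x, Pi.single_apply, Fin.ext_iff] using h4
  · have h5 : 0 + 1 < j.val := by omega
    have h4 := congrArg (fun g => g.z ⟨(⟨0, by omega⟩, j), h5⟩) (h (x ⟨0, by omega⟩))
    simp only [mul_z, h1, h2] at h4
    have h6 : j.val ≠ 0 := by omega
    simpa [x, Pi.single_apply, Fin.ext_iff, h6, h6.symm] using h4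

theorem two_inj {h : ℕ} [NeZero n] (hn : n = 2 * h) {a b : ZMod n} (h1 : 2 * a = 2 * b)
    (h2 : decide (a.val < h) = decide (b.val < h)) : a = b := by
  have h3 := a.val_lt
  have h4 := b.val_lt
  have h5 : ((2 * a.val : ℕ) : ZMod n) = ((2 * b.val : ℕ) : ZMod n) := by simpa using h1
  rw [ZMod.natCast_eq_natCast_iff] at h5
  have h5' : ∀ p q : ℕ, p ≡ q [MOD n] → p ≡ q [MOD 2 * h] := fun p q h => hn ▸ h
  have h6 := (Nat.modEq_iff_dvd.1 (Nat.ModEq.mul_left_cancel' (by omega) (h5' _ _ h5)))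
  have h7 := Int.eq_zero_of_abs_lt_dvd h6 (by
    rw [decide_eq_decide] at h2
    rw [abs_lt]; omega)
  exact ZMod.val_injective n (by omega)

def nb (a : Fin k) (r : Fin 3) : Fin k :=
  if h : a.val + r.val - 1 < k then ⟨a.val + r.val - 1, h⟩ else a

theorem x_comm (j : Fin k) : (x j : G n k) * x (nb j 2) = x (nb j 2) * x j := by
  have h1 : (nb j 2).val = j.val + 1 ∨ (nb j 2).val = j.val := by
    unfold nb; split_ifs <;> simp
  ext f
  · rfl
  · simp [x, add_comm]
  · have h3 := f.2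
    simp only [x, mul_z, sg_f, Pi.zero_apply, add_zero, one_mul, zero_add,
      Pi.single_apply, Fin.ext_iff]
    split_ifs <;> first | omega | simp

theorem step {g w w' : G n k} (hg : g.s = false) (hw : w.s = false) (hw' : w'.s = false)
    {g' : G n k} (hg' : g'.s = false) (hv : g'.v = g.v)
    (h1 : g * w = w * g) (h2 : g' * w' = w' * g') {a : Fin k} (ha : IsUnit (g.v a))
    (h3 : ∀ r, w.v (nb a r) = w'.v (nb a r)) : w.v = w'.v := by
  have h4 : w.v a = w'.v a := by simpa [nb] using h3 1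
  ext b
  by_cases h5 : a.val + 1 < b.val
  · have k1 := congrArg (fun y => y.z ⟨(a, b), h5⟩) h1
    have k2 := congrArg (fun y => y.z ⟨(a, b), h5⟩) h2
    simp only [mul_z, hg, hw, hw', hg', hv, sg_f] at k1 k2
    refine ha.mul_left_cancel ?_
    linear_combination k1 - k2 + g.v b * h4
  by_cases h6 : b.val + 1 < a.val
  · have k1 := congrArg (fun y => y.z ⟨(b, a), h6⟩) h1
    have k2 := congrArg (fun y => y.z ⟨(b, a), h6⟩) h2
    simp only [mul_z, hg, hw, hw', hg', hv, sg_f] at k1 k2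
    refine ha.mul_left_cancel ?_
    linear_combination k2 - k1 + g.v b * h4
  have h7 : nb a ⟨b.val + 1 - a.val, by omega⟩ = b := by
    have := b.2
    unfold nb
    rw [dif_pos (by simp; omega)]
    ext; simp; omega
  rw [← h7, h3]

theorem card_aut (l : ℕ) (hk : 4 ≤ k) : Nat.card (MulAut (G (2 ^ (l + 2)) k)) ≤
    (2 * 2 ^ Fintype.card (E k) * k ^ k * (2 ^ Fintype.card (E k)) ^ k) *
      (2 ^ (l + 2)) ^ (5 * k) := by
  set n := 2 ^ (l + 2) with hn
  have hn2 : n = 2 * 2 ^ (l + 1) := by rw [hn]; ring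
  have hg : ∀ (φ : MulAut (G n k)) (j : Fin k), (φ (x j)).s = false ∧
      ∃ a, IsUnit ((φ (x j)).v a) := fun φ j => good l fun h => x_good l hk j (by
    rw [Subgroup.mem_center_iff] at h ⊢
    intro y
    apply φ.injective
    rw [map_mul, map_mul, map_pow, h])
  choose hs a ha using hg
  let bit : G n k → E k → Bool := fun g e => decide ((g.z e).val < 2 ^ (l + 1))
  let F : MulAut (G n k) → (Bool × (Fin k → ZMod n) × (E k → Bool)) × (Fin k → ZMod n) ×
      (Fin k → Fin k) × (Fin k → Fin 3 → ZMod n) × (Fin k → E k → Bool) := fun φ =>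
    (((φ t).s, (φ t).v, bit (φ t)), (φ (x ⟨0, by omega⟩)).v, a φ,
      fun j r => (φ (x (nb j 2))).v (nb (a φ j) r), fun j => bit (φ (x j)))
  have hF : Function.Injective F := by
    intro φ ψ h
    simp only [F, Prod.ext_iff] at h
    obtain ⟨⟨h1, h2, h3⟩, h4, h5, h6, h7⟩ := h
    have ht : ∀ φ : MulAut (G n k), φ t * φ t = 1 := fun φ => by
      rw [← map_mul, ← map_one φ]; congr 1; ext <;> simp [t]
    have hx : ∀ (φ : MulAut (G n k)) j, φ (x j) * φ t * φ (x j) = φ t := fun φ j => by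
      rw [← map_mul, ← map_mul]; congr 1
      ext f
      · rfl
      · simp [t, x]
      · have h3 := f.2
        simp only [x, t, mul_z, mul_v, sg_f, sg_t, Pi.zero_apply, mul_zero, add_zero, one_mul,
          zero_add, Pi.single_apply, Fin.ext_iff]
        split_ifs <;> first | omega | simp
    have e1 : φ t = ψ t := by
      refine G.ext h1 h2 (funext fun e => two_inj hn2 ?_ (congrFun h3 e))
      have k1 := congrArg (fun y => y.z e) (ht φ)
      have k2 := congrArg (fun y => y.z e) (ht ψ)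
      simp only [mul_z, h1, h2] at k1 k2
      linear_combination k1 - k2
    have e2 : ∀ m (hm : m < k), (φ (x ⟨m, hm⟩)).v = (ψ (x ⟨m, hm⟩)).v := by
      intro m
      induction m with
      | zero => exact fun _ => h4
      | succ m ih =>
        intro hm
        have h8 : nb (⟨m, by omega⟩ : Fin k) 2 = ⟨m + 1, hm⟩ := by
          unfold nb; rw [dif_pos (by simpa using hm)]; rfl
        rw [← h8]
        refine step (hs φ ⟨m, by omega⟩) (hs φ _) (hs ψ _) (hs ψ ⟨m, by omega⟩) (ih _).symm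
          (by rw [← map_mul, x_comm, map_mul]) (by rw [← map_mul, x_comm, map_mul])
          (ha φ _) fun r => ?_
        have := congrFun (congrFun h6 ⟨m, by omega⟩) r
        simp only [← h5] at this
        exact this
    have e3 : ∀ j, φ (x j) = ψ (x j) := by
      intro j
      have e4 : (φ (x j)).v = (ψ (x j)).v := e2 j.1 j.2
      refine G.ext (by rw [hs, hs]) e4 (funext fun e => two_inj hn2 ?_ (congrFun (congrFun h7 j) e))
      have k1 := congrArg (fun y => y.z e) (hx φ j)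
      have k2 := congrArg (fun y => y.z e) (hx ψ j)
      simp only [mul_z, mul_v, hs, e1, e4] at k1 k2
      linear_combination k1 - k2
    ext1 g
    exact gen (φ.toMonoidHom.eqLocus ψ.toMonoidHom) e1 e3 g
  refine (Nat.card_le_card_of_injective F hF).trans (le_of_eq ?_)
  simp only [Nat.card_prod, Nat.card_fun, Nat.card_zmod]
  simp only [Nat.card_eq_fintype_card, Fintype.card_fin, Fintype.card_bool]
  ring

theorem card_E (m : ℕ) : m * m ≤ Fintype.card (E (2 * m + 1)) := by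
  have := Fintype.card_le_of_injective (fun p : Fin m × Fin m =>
    (⟨(⟨p.1.val, by omega⟩, ⟨p.2.val + m + 1, by omega⟩), by simp; omega⟩ : E (2 * m + 1)))
    (fun p q h => by
      simp only [Subtype.ext_iff, Prod.ext_iff, Fin.ext_iff] at h ⊢
      omega)
  simpa using this

theorem main (a : ℝ) (ha : 0 < a) : ∃ (H : Type) (_ : Group H) (_ : Finite H), IsPGroup 2 H ∧
    (Nat.card (MulAut H) : ℝ) < (Nat.totient (Nat.card H) : ℝ) ^ a := by
  obtain ⟨m0, hm⟩ := exists_nat_gt (16 / a)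
  obtain ⟨m, h1, h2⟩ : ∃ m : ℕ, 2 ≤ m ∧ 16 ≤ m * a := by
    refine ⟨m0 + 2, by omega, ?_⟩
    rw [div_lt_iff₀ ha] at hm
    push_cast; nlinarith
  obtain ⟨k, hk⟩ : ∃ k, k = 2 * m + 1 := ⟨_, rfl⟩
  obtain ⟨e, he⟩ : ∃ e, e = Fintype.card (E k) := ⟨_, rfl⟩
  obtain ⟨C, hC⟩ : ∃ C, C = 2 * 2 ^ e * k ^ k * (2 ^ e) ^ k := ⟨_, rfl⟩
  have hc : Nat.card (G (2 ^ (C + 2)) k) = 2 ^ ((C + 2) * (k + e) + 1) := by
    rw [card_G, ← he, ← pow_add, ← pow_mul, ← pow_succ']
  refine ⟨G (2 ^ (C + 2)) k, inferInstance, inferInstance, IsPGroup.of_card hc, ?_⟩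
  have h3 := card_aut (k := k) C (by omega)
  rw [← he, ← hC] at h3
  have h4 : C < 2 ^ (C + 2) := Nat.lt_two_pow_self.trans (Nat.pow_lt_pow_right (by omega) (by omega))
  have h5 : Nat.card (MulAut (G (2 ^ (C + 2)) k)) < (2 ^ (C + 2)) ^ (5 * k + 1) := by
    refine h3.trans_lt ?_
    rw [pow_succ' _ (5 * k)]
    exact Nat.mul_lt_mul_of_pos_right h4 (by positivity)
  rw [hc, Nat.totient_prime_pow_succ Nat.prime_two]
  refine (Nat.cast_lt.2 h5).trans_le ?_
  have h6 : (m * m : ℝ) ≤ e := by rw [he, hk]; exact_mod_cast card_E m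
  have h7 : (2 : ℝ) ≤ m := by exact_mod_cast h1
  rw [pow_mul]
  push_cast
  rw [mul_one, ← Real.rpow_natCast _ (k + e), ← Real.rpow_mul (by positivity),
    ← Real.rpow_natCast _ (5 * k + 1)]
  refine Real.rpow_le_rpow_of_exponent_le (one_le_pow₀ (by norm_num)) ?_
  rw [hk]
  push_cast
  nlinarith [mul_le_mul_of_nonneg_right h6 ha.le, mul_le_mul_of_nonneg_left h2 (by positivity : (0:ℝ) ≤ m)]

end Pool.Agent.H.MP_a94181_al
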